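import Pool.Agent.Lib.LD.Def

/-!
# LD59, file S8: an uncrossed pair exists in a 2-connected graph with a separation, unless all degrees are 2
-/

set_option autoImplicit false
set_option linter.unusedSectionVars false

namespace LD59

open Finset H98M LD

variable {V : Type*} [DecidableEq V]

/-- An edge leaves every nonempty proper part of a connected set. -/
theorem exists_edge {G : Finset (Sym2 V)} {W A : Finset V} (hW : ¬ Disc W G) (hA : A ⊆ W)
    (hAn : A.Nonempty) (hne : A ≠ W) : ∃ x ∈ A, ∃ y ∈ W, y ∉ A ∧ s(x, y) ∈ G := by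
  by_contra hcon
  push Not at hcon
  refine hW ⟨A, W \ A, hAn, ?_, disjoint_sdiff, union_sdiff_of_subset hA, fun x hx y hy => ?_⟩
  · rw [sdiff_nonempty]
    exact fun h => hne (hA.antisymm h)
  · exact hcon x hx y (mem_sdiff.1 hy).1 (mem_sdiff.1 hy).2

/-- All degrees of a 2-connected graph are at least 2. -/
theorem two_le_deg {E : Finset (Sym2 V)} {Y : Finset V} (h : TCY E Y) {v : V} (hv : v ∈ Y) :
    2 ≤ H85TF.dg E v := by
  have h3 := h.three
  have hne : ({v} : Finset V) ≠ Y := by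
    intro e
    rw [← e, card_singleton] at h3
    omega
  obtain ⟨x, hx, y, hyY, hy, he⟩ := exists_edge h.conn (singleton_subset_iff.2 hv)
    ⟨v, mem_singleton_self v⟩ hne
  rw [mem_singleton] at hx hy
  subst hx
  have hne2 : ({x} : Finset V) ≠ Y.erase y := by
    intro e
    have h1 := congrArg Finset.card e
    rw [card_singleton, card_erase_of_mem hyY] at h1
    omega
  have hsub : ({x} : Finset V) ⊆ Y.erase y := by
    rw [singleton_subset_iff]
    exact mem_erase.2 ⟨Ne.symm hy, hv⟩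
  obtain ⟨x', hx', z, hz, hzx, he2⟩ := exists_edge (h.conn' y hyY) hsub
    ⟨x, mem_singleton_self x⟩ hne2
  rw [mem_singleton] at hx' hzx
  subst hx'
  have hzy : z ≠ y := (mem_erase.1 hz).1
  have h1 : ({s(x', y), s(x', z)} : Finset (Sym2 V)) ⊆ E.filter fun e => x' ∈ e := by
    intro e h
    rw [mem_insert, mem_singleton] at h
    rcases h with rfl | rfl
    · exact mem_filter.2 ⟨he, Sym2.mem_mk_left _ _⟩
    · exact mem_filter.2 ⟨he2, Sym2.mem_mk_left _ _⟩
  have h2 : s(x', y) ≠ s(x', z) := by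
    intro h
    rw [Sym2.eq_iff] at h
    rcases h with ⟨-, h⟩ | ⟨h, -⟩
    · exact hzy h.symm
    · exact hzx h.symm
  calc 2 = ({s(x', y), s(x', z)} : Finset (Sym2 V)).card := (card_pair h2).symm
    _ ≤ _ := card_le_card h1

/-- The handshake lemma. -/
theorem sum_deg {E : Finset (Sym2 V)} {Y : Finset V} (h : TCY E Y) :
    ∑ v ∈ Y, H85TF.dg E v = 2 * E.card := by
  have h1 : ∑ v ∈ Y, H85TF.dg E v = ∑ e ∈ E, (Y.filter fun v => v ∈ e).card := by
    simp only [H85TF.dg, card_filter]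
    rw [sum_comm]
  rw [h1]
  have h2 : ∀ e ∈ E, (Y.filter fun v => v ∈ e).card = 2 := by
    intro e he
    induction e using Sym2.ind with
    | _ a b =>
      have hab : a ≠ b := fun h3 => h.loop _ he (by rw [h3]; exact Sym2.mk_isDiag_iff.2 rfl)
      have ha : a ∈ Y := h.sub _ he a (Sym2.mem_mk_left _ _)
      have hb : b ∈ Y := h.sub _ he b (Sym2.mem_mk_right _ _)
      have h3 : (Y.filter fun v => v ∈ s(a, b)) = {a, b} := by
        ext v
        rw [mem_filter, Sym2.mem_iff, mem_insert, mem_singleton]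
        constructor
        · exact fun h => h.2
        · rintro (rfl | rfl)
          · exact ⟨ha, Or.inl rfl⟩
          · exact ⟨hb, Or.inr rfl⟩
      rw [h3, card_pair hab]
  rw [sum_congr rfl h2, sum_const, smul_eq_mul, mul_comm]

/-- A 2-connected graph in which not all degrees are 2 has more edges than vertices. -/
theorem card_lt {E : Finset (Sym2 V)} {Y : Finset V} (h : TCY E Y)
    (hd : ¬ ∀ v ∈ Y, H85TF.dg E v = 2) : Y.card < E.card := by
  push Not at hd
  obtain ⟨v, hv, hv2⟩ := hd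
  have h1 : ∑ u ∈ Y, 2 < ∑ u ∈ Y, H85TF.dg E u :=
    sum_lt_sum (fun u hu => two_le_deg h hu)
      ⟨v, hv, lt_of_le_of_ne (two_le_deg h hv) (Ne.symm hv2)⟩
  rw [sum_deg h, sum_const, smul_eq_mul] at h1
  omega

/-- The number of edges inside `T`. -/
def ee (E : Finset (Sym2 V)) (T : Finset V) : ℕ := (E.filter fun e => e ∈ T.sym2).card

theorem ee_pair {E : Finset (Sym2 V)} (hE : ∀ e ∈ E, ¬ e.IsDiag) (x u : V) :
    ee E (insert x (insert u ∅)) ≤ 1 := by
  unfold ee
  rw [card_le_one]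
  intro e he f hf
  rw [mem_filter, mem_sym2_iff] at he hf
  have key : ∀ e ∈ E, (∀ w ∈ e, w ∈ insert x (insert u (∅ : Finset V))) → e = s(x, u) := by
    intro e he h
    induction e using Sym2.ind with
    | _ a b =>
      have hab : a ≠ b := fun h3 => hE _ he (by rw [h3]; exact Sym2.mk_isDiag_iff.2 rfl)
      have h1 := h a (Sym2.mem_mk_left _ _)
      have h2 := h b (Sym2.mem_mk_right _ _)
      rw [mem_insert, mem_insert] at h1 h2
      rcases h1 with rfl | rfl | h1
      · rcases h2 with rfl | rfl | h2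
        · exact absurd rfl hab
        · rfl
        · exact absurd h2 (notMem_empty _)
      · rcases h2 with rfl | rfl | h2
        · exact Sym2.eq_swap
        · exact absurd rfl hab
        · exact absurd h2 (notMem_empty _)
      · exact absurd h1 (notMem_empty _)
  rw [key e he.1 he.2, key f hf.1 hf.2]

theorem mem_Y {E : Finset (Sym2 V)} {Y : Finset V} {x y : V} {P Q : Finset V}
    (hs : Sep E Y x y P Q) {a : V} : a ∈ Y ↔ a = x ∨ a = y ∨ a ∈ P ∨ a ∈ Q := by
  rw [← hs.eq, mem_insert, mem_insert, mem_union]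

theorem card_Y {E : Finset (Sym2 V)} {Y : Finset V} {x y : V} {P Q : Finset V}
    (hs : Sep E Y x y P Q) : Y.card = P.card + Q.card + 2 := by
  rw [← hs.eq, card_insert_of_notMem, card_insert_of_notMem, card_union_of_disjoint hs.dis]
  · rw [mem_union]
    exact fun h => h.elim hs.yP hs.yQ
  · rw [mem_insert, mem_union]
    exact fun h => h.elim hs.ne fun h => h.elim hs.xP hs.xQ

theorem card_E {E : Finset (Sym2 V)} {Y : Finset V} (h : TCY E Y) {x y : V} {P Q : Finset V}
    (hs : Sep E Y x y P Q) :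
    E.card ≤ ee E (insert x (insert y P)) + ee E (insert x (insert y Q)) := by
  unfold ee
  refine (card_le_card ?_).trans (card_union_le _ _)
  intro e he
  rw [mem_union, mem_filter, mem_filter, mem_sym2_iff, mem_sym2_iff]
  induction e using Sym2.ind with
  | _ a b =>
    have ha := (mem_Y hs).1 (h.sub _ he a (Sym2.mem_mk_left _ _))
    have hb := (mem_Y hs).1 (h.sub _ he b (Sym2.mem_mk_right _ _))
    have hPQ : ¬ (a ∈ P ∧ b ∈ Q) := fun h1 => hs.noE a h1.1 b h1.2 he
    have hQP : ¬ (b ∈ P ∧ a ∈ Q) := fun h1 => hs.noE b h1.1 a h1.2 (by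
      rw [Sym2.eq_swap]
      exact he)
    by_cases h1 : a ∈ Q ∨ b ∈ Q
    · refine Or.inr ⟨he, fun w hw => ?_⟩
      rw [mem_insert, mem_insert]
      rcases Sym2.mem_iff.1 hw with rfl | rfl
      · tauto
      · tauto
    · refine Or.inl ⟨he, fun w hw => ?_⟩
      rw [mem_insert, mem_insert]
      rcases Sym2.mem_iff.1 hw with rfl | rfl
      · tauto
      · tauto

/-- One of two crossing vertices lies in `P`. -/
theorem cross_mem {E : Finset (Sym2 V)} {Y : Finset V} (h : TCY E Y) {x y u v : V}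
    {P Q A B : Finset V} (hs : Sep E Y x y P Q) (ht : Sep E Y u v A B) (hx : x ∈ A) (hy : y ∈ B) :
    u ∈ P ∨ v ∈ P := by
  by_contra hcon
  rw [not_or] at hcon
  have hux : u ≠ x := fun e => ht.xP (e ▸ hx)
  have huy : u ≠ y := fun e => ht.xQ (e ▸ hy)
  have hvx : v ≠ x := fun e => ht.yP (e ▸ hx)
  have hvy : v ≠ y := fun e => ht.yQ (e ▸ hy)
  -- a part of `P` on one side is cut off by one vertex
  have key : ∀ (x y : V) (A B : Finset V), Sep E Y x y P Q → Sep E Y u v A B → x ∈ A → y ∈ B →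
      u ≠ x → u ≠ y → v ≠ x → v ≠ y → ¬ (P ∩ A).Nonempty := by
    intro x y A B hs ht hx hy hux huy hvx hvy hPA
    have hxY : x ∈ Y := (mem_Y hs).2 (Or.inl rfl)
    refine h.conn' x hxY ⟨P ∩ A, (Y.erase x) \ (P ∩ A), hPA, ⟨y, ?_⟩, disjoint_sdiff, ?_, ?_⟩
    · rw [mem_sdiff, mem_erase]
      exact ⟨⟨hs.ne.symm, (mem_Y hs).2 (Or.inr (Or.inl rfl))⟩, fun h1 => hs.yP (mem_inter.1 h1).1⟩
    · refine union_sdiff_of_subset fun a ha => ?_
      rw [mem_inter] at ha
      exact mem_erase.2 ⟨fun e => hs.xP (e ▸ ha.1), (mem_Y hs).2 (Or.inr (Or.inr (Or.inl ha.1)))⟩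
    · intro a ha b hb hab
      rw [mem_inter] at ha
      rw [mem_sdiff, mem_erase, mem_inter] at hb
      obtain ⟨⟨hbx, hbY⟩, hb2⟩ := hb
      have h1 : b ∉ Q := fun h1 => hs.noE a ha.1 b h1 hab
      have h2 : b ∉ B := fun h2 => ht.noE a ha.2 b h2 hab
      have h3 : b ≠ y := fun e => h2 (e ▸ hy)
      have h4 : b ∈ P := by
        rcases (mem_Y hs).1 hbY with h5 | h5 | h5 | h5
        · exact absurd h5 hbx
        · exact absurd h5 h3
        · exact h5
        · exact absurd h5 h1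
      rcases (mem_Y ht).1 hbY with h5 | h5 | h5 | h5
      · exact hcon.1 (h5 ▸ h4)
      · exact hcon.2 (h5 ▸ h4)
      · exact hb2 ⟨h4, h5⟩
      · exact h2 h5
  obtain ⟨p, hp⟩ := hs.P0
  have hpY : p ∈ Y := (mem_Y hs).2 (Or.inr (Or.inr (Or.inl hp)))
  rcases (mem_Y ht).1 hpY with h5 | h5 | h5 | h5
  · exact hcon.1 (h5 ▸ hp)
  · exact hcon.2 (h5 ▸ hp)
  · exact key x y A B hs ht hx hy hux huy hvx hvy ⟨p, mem_inter.2 ⟨hp, h5⟩⟩
  · exact key y x B A hs.flip ht.symm hy hx huy hux hvy hvx ⟨p, mem_inter.2 ⟨hp, h5⟩⟩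

/-- The smaller separation at `{x, u}`. -/
theorem half {E : Finset (Sym2 V)} {Y : Finset V} {x y u v : V}
    {P Q A B : Finset V} (hs : Sep E Y x y P Q) (ht : Sep E Y u v A B) (hx : x ∈ A) (hy : y ∈ B)
    (hu : u ∈ P) (hv : v ∈ Q) (hPA : (P ∩ A).Nonempty) :
    Sep E Y x u (P ∩ A) (((Y \ (P ∩ A)).erase x).erase u) where
  ne := fun e => hs.xP (e ▸ hu)
  xP := fun h1 => hs.xP (mem_inter.1 h1).1
  xQ := fun h1 => (mem_erase.1 (mem_erase.1 h1).2).1 rfl
  yP := fun h1 => ht.xP (mem_inter.1 h1).2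
  yQ := fun h1 => (mem_erase.1 h1).1 rfl
  P0 := hPA
  Q0 := ⟨y, mem_erase.2 ⟨fun e => ht.xQ (e ▸ hy), mem_erase.2 ⟨hs.ne.symm, mem_sdiff.2
    ⟨(mem_Y hs).2 (Or.inr (Or.inl rfl)), fun h1 => hs.yP (mem_inter.1 h1).1⟩⟩⟩⟩
  dis := by
    rw [disjoint_left]
    exact fun a ha hb => (mem_sdiff.1 (mem_erase.1 (mem_erase.1 hb).2).2).2 ha
  eq := by
    have hxY : x ∈ Y := (mem_Y hs).2 (Or.inl rfl)
    have huY : u ∈ Y := (mem_Y hs).2 (Or.inr (Or.inr (Or.inl hu)))
    ext a
    rw [mem_insert, mem_insert, mem_union, mem_erase, mem_erase, mem_sdiff]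
    constructor
    · rintro (rfl | rfl | h1 | h1)
      · exact hxY
      · exact huY
      · exact (mem_Y hs).2 (Or.inr (Or.inr (Or.inl (mem_inter.1 h1).1)))
      · exact h1.2.2.1
    · intro ha
      by_cases h1 : a = x
      · exact Or.inl h1
      by_cases h2 : a = u
      · exact Or.inr (Or.inl h2)
      by_cases h3 : a ∈ P ∩ A
      · exact Or.inr (Or.inr (Or.inl h3))
      · exact Or.inr (Or.inr (Or.inr ⟨h2, h1, ha, h3⟩))
  noE := by
    intro a ha b hb hab
    rw [mem_inter] at ha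
    rw [mem_erase, mem_erase, mem_sdiff, mem_inter] at hb
    obtain ⟨hbu, hbx, hbY, hb2⟩ := hb
    have h1 : b ∉ Q := fun h1 => hs.noE a ha.1 b h1 hab
    have h2 : b ∉ B := fun h2 => ht.noE a ha.2 b h2 hab
    have h3 : b ≠ y := fun e => h2 (e ▸ hy)
    have h4 : b ∈ P := by
      rcases (mem_Y hs).1 hbY with h5 | h5 | h5 | h5
      · exact absurd h5 hbx
      · exact absurd h5 h3
      · exact h5
      · exact absurd h5 h1
    rcases (mem_Y ht).1 hbY with h5 | h5 | h5 | h5
    · exact hbu h5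
    · exact h1 (h5 ▸ hv)
    · exact hb2 ⟨h4, h5⟩
    · exact h2 h5

/-- The edges inside `P + x + y` are divided. -/
theorem ee_split {E : Finset (Sym2 V)} {Y : Finset V} (h : TCY E Y) {x y u v : V}
    {P Q A B : Finset V} (hs : Sep E Y x y P Q) (ht : Sep E Y u v A B) (hx : x ∈ A) (hy : y ∈ B)
    (hv : v ∈ Q) :
    ee E (insert x (insert y P)) ≤
      ee E (insert x (insert u (P ∩ A))) + ee E (insert y (insert u (P ∩ B))) := by
  unfold ee
  refine (card_le_card ?_).trans (card_union_le _ _)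
  intro e he
  rw [mem_filter, mem_sym2_iff] at he
  rw [mem_union, mem_filter, mem_filter, mem_sym2_iff, mem_sym2_iff]
  obtain ⟨he, he2⟩ := he
  have hvP : v ∉ P := fun h1 => disjoint_left.1 hs.dis h1 hv
  have hvx : v ≠ x := fun e => hs.xQ (e ▸ hv)
  have hvy : v ≠ y := fun e => hs.yQ (e ▸ hv)
  have key : ∀ a : V, a ∈ (insert x (insert y P) : Finset V) →
      (a ∈ (insert x (insert u (P ∩ A)) : Finset V) ∧ (a = u ∨ a ∈ A)) ∨
      (a ∈ (insert y (insert u (P ∩ B)) : Finset V) ∧ (a = u ∨ a ∈ B)) := by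
    intro a ha
    rw [mem_insert, mem_insert] at ha
    rcases ha with rfl | rfl | ha
    · exact Or.inl ⟨mem_insert_self _ _, Or.inr hx⟩
    · exact Or.inr ⟨mem_insert_self _ _, Or.inr hy⟩
    · rcases (mem_Y ht).1 ((mem_Y hs).2 (Or.inr (Or.inr (Or.inl ha)))) with h5 | h5 | h5 | h5
      · exact Or.inl ⟨mem_insert_of_mem (mem_insert.2 (Or.inl h5)), Or.inl h5⟩
      · exact absurd (h5 ▸ ha) hvP
      · exact Or.inl ⟨mem_insert_of_mem (mem_insert_of_mem (mem_inter.2 ⟨ha, h5⟩)), Or.inr h5⟩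
      · exact Or.inr ⟨mem_insert_of_mem (mem_insert_of_mem (mem_inter.2 ⟨ha, h5⟩)), Or.inr h5⟩
  induction e using Sym2.ind with
  | _ a b =>
    have ha := key a (he2 a (Sym2.mem_mk_left _ _))
    have hb := key b (he2 b (Sym2.mem_mk_right _ _))
    have hAB : ¬ (a ∈ A ∧ b ∈ B) := fun h1 => ht.noE a h1.1 b h1.2 he
    have hBA : ¬ (b ∈ A ∧ a ∈ B) := fun h1 => ht.noE b h1.1 a h1.2 (by
      rw [Sym2.eq_swap]
      exact he)
    have hu1 : ∀ c : V, c = u → c ∈ (insert x (insert u (P ∩ A)) : Finset V) := fun c hc =>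
      mem_insert_of_mem (mem_insert.2 (Or.inl hc))
    have hu2 : ∀ c : V, c = u → c ∈ (insert y (insert u (P ∩ B)) : Finset V) := fun c hc =>
      mem_insert_of_mem (mem_insert.2 (Or.inl hc))
    have hfin : (a ∈ (insert x (insert u (P ∩ A)) : Finset V) ∧
        b ∈ (insert x (insert u (P ∩ A)) : Finset V)) ∨
        (a ∈ (insert y (insert u (P ∩ B)) : Finset V) ∧
        b ∈ (insert y (insert u (P ∩ B)) : Finset V)) := by
      rcases ha with ⟨ha1, ha2 | ha2⟩ | ⟨ha1, ha2 | ha2⟩
      · rcases hb with ⟨hb1, -⟩ | ⟨hb1, -⟩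
        · exact Or.inl ⟨ha1, hb1⟩
        · exact Or.inr ⟨hu2 a ha2, hb1⟩
      · rcases hb with ⟨hb1, -⟩ | ⟨hb1, hb2 | hb2⟩
        · exact Or.inl ⟨ha1, hb1⟩
        · exact Or.inl ⟨ha1, hu1 b hb2⟩
        · exact absurd ⟨ha2, hb2⟩ hAB
      · rcases hb with ⟨hb1, -⟩ | ⟨hb1, -⟩
        · exact Or.inl ⟨hu1 a ha2, hb1⟩
        · exact Or.inr ⟨ha1, hb1⟩
      · rcases hb with ⟨hb1, hb2 | hb2⟩ | ⟨hb1, -⟩
        · exact Or.inr ⟨ha1, hu2 b hb2⟩
        · exact absurd ⟨hb2, ha2⟩ hBA
        · exact Or.inr ⟨ha1, hb1⟩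
    rcases hfin with ⟨h1, h2⟩ | ⟨h1, h2⟩
    · refine Or.inl ⟨he, fun w hw => ?_⟩
      rcases Sym2.mem_iff.1 hw with rfl | rfl
      · exact h1
      · exact h2
    · refine Or.inr ⟨he, fun w hw => ?_⟩
      rcases Sym2.mem_iff.1 hw with rfl | rfl
      · exact h1
      · exact h2

/-- A separation with excess on the side `P` gives an uncrossed pair. -/
theorem exists_unc_aux {E : Finset (Sym2 V)} {Y : Finset V} (h : TCY E Y) :
    ∀ (n : ℕ) {x y : V} {P Q : Finset V}, P.card ≤ n → Sep E Y x y P Q →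
      P.card + 2 ≤ ee E (insert x (insert y P)) → ∃ x y P Q, Sep E Y x y P Q ∧ Unc E Y x y := by
  intro n
  induction n with
  | zero =>
    intro x y P Q hc hs _
    have := card_pos.2 hs.P0
    omega
  | succ n ih =>
    intro x y P Q hc hs he
    by_cases hU : Unc E Y x y
    · exact ⟨x, y, P, Q, hs, hU⟩
    have hcr : ∃ u v A B, Sep E Y u v A B ∧ x ∈ A ∧ y ∈ B := by
      by_contra hcon
      refine hU fun u v A B ht hxy => hcon ⟨u, v, A, B, ht, hxy.1, hxy.2⟩
    obtain ⟨u, v, A, B, ht, hx, hy⟩ := hcr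
    -- the case `u ∈ P`, `v ∈ Q`
    have main : ∀ u v, Sep E Y u v A B → u ∈ P → v ∈ Q →
        ∃ x y P Q, Sep E Y x y P Q ∧ Unc E Y x y := by
      intro u v ht hu hv
      have h1 := ee_split h hs ht hx hy hv
      have hcP : (P ∩ A).card + (P ∩ B).card + 1 = P.card := by
        have h2 : P = insert u ((P ∩ A) ∪ (P ∩ B)) := by
          ext a
          rw [mem_insert, mem_union, mem_inter, mem_inter]
          constructor
          · intro ha
            rcases (mem_Y ht).1 ((mem_Y hs).2 (Or.inr (Or.inr (Or.inl ha)))) with h5 | h5 | h5 | h5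
            · exact Or.inl h5
            · exact absurd (h5 ▸ ha) (fun h6 => disjoint_left.1 hs.dis h6 hv)
            · exact Or.inr (Or.inl ⟨ha, h5⟩)
            · exact Or.inr (Or.inr ⟨ha, h5⟩)
          · rintro (rfl | h5 | h5)
            · exact hu
            · exact h5.1
            · exact h5.1
        have h3 : u ∉ (P ∩ A) ∪ (P ∩ B) := by
          rw [mem_union, mem_inter, mem_inter]
          exact fun h5 => h5.elim (fun h6 => ht.xP h6.2) (fun h6 => ht.xQ h6.2)
        have h4 : Disjoint (P ∩ A) (P ∩ B) :=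
          Disjoint.mono inter_subset_right inter_subset_right ht.dis
        have h5 := congrArg Finset.card h2
        rw [card_insert_of_notMem h3, card_union_of_disjoint h4] at h5
        omega
      by_cases hA : (P ∩ A).card + 2 ≤ ee E (insert x (insert u (P ∩ A)))
      · have hPA : (P ∩ A).Nonempty := by
          by_contra hcon
          rw [not_nonempty_iff_eq_empty] at hcon
          rw [hcon] at hA
          have := ee_pair h.loop x u
          omega
        exact ih (by omega) (half hs ht hx hy hu hv hPA) hA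
      · have hB : (P ∩ B).card + 2 ≤ ee E (insert y (insert u (P ∩ B))) := by omega
        have hPB : (P ∩ B).Nonempty := by
          by_contra hcon
          rw [not_nonempty_iff_eq_empty] at hcon
          rw [hcon] at hB
          have := ee_pair h.loop y u
          omega
        exact ih (by omega) (half hs.flip ht.symm hy hx hu hv hPB) hB
    have hP := cross_mem h hs ht hx hy
    have hQ := cross_mem h hs.symm ht hx hy
    rcases hP with hP | hP
    · rcases hQ with hQ | hQ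
      · exact absurd hQ (fun h6 => disjoint_left.1 hs.dis hP h6)
      · exact main u v ht hP hQ
    · rcases hQ with hQ | hQ
      · exact main v u ht.flip hP hQ
      · exact absurd hQ (fun h6 => disjoint_left.1 hs.dis hP h6)

/-- (S8) An uncrossed separation exists. -/
theorem exists_unc {E : Finset (Sym2 V)} {Y : Finset V} (h : TCY E Y)
    (hs : ∃ x y P Q, Sep E Y x y P Q) (hd : ¬ ∀ v ∈ Y, H85TF.dg E v = 2) :
    ∃ x y P Q, Sep E Y x y P Q ∧ Unc E Y x y := by
  obtain ⟨x, y, P, Q, hs⟩ := hs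
  have h1 := card_lt h hd
  have h2 := card_E h hs
  have h3 := card_Y hs
  by_cases hP : P.card + 2 ≤ ee E (insert x (insert y P))
  · exact exists_unc_aux h P.card le_rfl hs hP
  · exact exists_unc_aux h Q.card le_rfl hs.symm (by omega)

end LD59
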